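import Mathlib
import Pool.Agent.H373R2.T7.PArg2

/-!
Prime values of polynomials at prime arguments, for almost all shifts: for arbitrary fixed nonconstant polynomials
`F_1, ..., F_k` with integer coefficients and positive leading coefficients, and for all but a proportion `1 / log^U x` of
the vectors `(a_1, ..., a_k)` with `1 ≤ a_i ≤ A_i` (`A_i` of the order of magnitude of `x ^ deg F_i`), the number of
primes `p ≤ x` with `F_1(p) + a_1, ..., F_k(p) + a_k` all prime is given by the Bateman-Horn formula (with the constant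
cut at `z`), with an error saving any power of the logarithm in the logarithmically weighted form of the count.
-/

namespace Pool.Agent.Results.MP_82233c_nt.AlmostAllShifts
open Finset Polynomial Pool.Agent.H373R2.T7.PArg

open Classical in
theorem result (k : ℕ) (F : Fin k → ℤ[X]) (hF : ∀ i, 1 ≤ (F i).natDegree) (hFl : ∀ i, 0 < (F i).leadingCoeff)
    (B : ℕ) (hB : 1 ≤ B) (U : ℕ) (ε : ℝ) (hε : 0 < ε) :
    ∃ B₀ : ℕ, ∀ E : ℕ, ∃ x₀ : ℕ, ∀ x : ℕ, x₀ ≤ x →
      ∀ A : Fin k → ℕ, (∀ i, A i ≤ B * x ^ (F i).natDegree ∧ x ^ (F i).natDegree ≤ B * A i) →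
      ∀ z : ℕ, Real.log x ^ B₀ ≤ z → (z : ℝ) ≤ Real.log x ^ E →
      (((Fintype.piFinset (fun i => Icc 1 (A i))).filter (fun a : Fin k → ℕ =>
        ¬ (|weightedCount F a x - sing F a z * x| ≤ x / Real.log x ^ U ∧
          (NoFixedDivisor F a → |(primeCount F a x : ℝ) - expected F a z x| ≤ ε * expected F a z x)))).card : ℝ) ≤
        (∏ i, (A i : ℝ)) / Real.log x ^ U :=
  parg_main F hF hFl B hB U ε hε

end Pool.Agent.Results.MP_82233c_nt.AlmostAllShifts
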