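import Pool.Agent.H300R2.NB.PrimeArg

/-!
Primes `p` for which `F_i(p) + a_i p^{j_i} + b_i` are all prime, for almost all `(a_i, b_i)`, with
arbitrary polynomials `F_i`.
-/

set_option autoImplicit false

namespace Pool.Agent.Results.MP_82233c_nt.PrimeArguments

open Finset Polynomial
open Pool.Agent.H300R2.NB

/-- **Prime values at primes.** Let `ε > 0`. For all `r, D, C, U` there is `B` such that for every
`E`, `x` large, `(log x)^B ≤ z ≤ (log x)^E`, `x^ε ≤ K ≤ x`, `1 ≤ j_i ≤ D`, `A_i ≥ (log x)^B`,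
`A_i K^{j_i} (log x)^C ≥ x`, `X_i (log x)^C ≥ x`, ANY integers `A0_i, B0_i` and ANY polynomials
`F_i ∈ ℤ[X]` of degree `≤ D` the following holds for all `a_i ∈ (A0_i, A0_i + A_i]`,
`b_i ∈ (B0_i, B0_i + X_i]` with at most `∏ A_i X_i / (log x)^U` exceptions, for ALL `y ≤ K`: the
number of primes `n ≤ y` for which all the numbers `F_i(n) + a_i n^{j_i} + b_i` are primes `≤ x`
is `𝔖*_z ∑ ∏ 1/log(F_i(n) + a_i n^{j_i} + b_i) + O(K/(log x)^U)`, the sum over the primes `n ≤ y`,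
`𝔖*_z = ∏_{q ≤ z} (1 - 1/q)^{-r} (1 - ω*(q)/(q-1))` the Bateman-Horn product over the primes
`q ≤ z` of the `r + 1` polynomials `n, F_i(n) + a_i n^{j_i} + b_i`; and it is at least `K/(log x)^{C+r+1}` if for no prime
`q ≤ z` the product of the `F_i(n) + a_i n^{j_i} + b_i` is divisible by `q` for all `n` prime to
`q`, and at least `K/(log x)^C` primes `n ≤ y` have `0 < F_i(n) + a_i n^{j_i} + b_i ≤ x` for
all `i`. -/
theorem result (r D C U : ℕ) (ε : ℝ) (hε : 0 < ε) : ∃ B : ℕ, ∀ E : ℕ, ∃ x0 : ℕ, ∀ x : ℕ,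
    x0 ≤ x → ∀ z K : ℕ, Real.log x ^ B ≤ z → (z : ℝ) ≤ Real.log x ^ E →
    (x : ℝ) ^ ε ≤ K → K ≤ x →
    ∀ j A X : Fin r → ℕ, (∀ i, 1 ≤ j i ∧ j i ≤ D ∧ Real.log x ^ B ≤ A i ∧
      (x : ℝ) ≤ A i * (K : ℝ) ^ (j i) * Real.log x ^ C ∧ (x : ℝ) ≤ X i * Real.log x ^ C) →
    ∀ (A0 B0 : Fin r → ℤ) (F : Fin r → ℤ[X]), (∀ i, (F i).natDegree ≤ D) →
    ∃ Ex : Finset (Fin r → ℤ × ℤ),
      (Ex.card : ℝ) ≤ (∏ i, ((A i : ℝ) * X i)) / Real.log x ^ U ∧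
      ∀ p ∈ Bx A0 B0 A X, p ∉ Ex → ∀ y : ℕ, y ≤ K →
      |cntP x ((Icc 1 y).filter Nat.Prime) (vals (pen F j p)) -
        singp (pen F j p) z * logS x ((Icc 1 y).filter Nat.Prime) (vals (pen F j p))| ≤
        K / Real.log x ^ U ∧
      ((∀ q : ℕ, q.Prime → q ≤ z → omp (pen F j p) q < q - 1) →
        (K : ℝ) / Real.log x ^ C ≤ cntI x ((Icc 1 y).filter Nat.Prime) (vals (pen F j p)) →
        (K : ℝ) / Real.log x ^ (C + r + 1) ≤
          cntP x ((Icc 1 y).filter Nat.Prime) (vals (pen F j p))) :=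
  bhp r D C U ε hε

end Pool.Agent.Results.MP_82233c_nt.PrimeArguments
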